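import Pool.Agent.H380.BG.Stm

/-!
# Project BG of helper380, task COEF (helper227): product of two Dirichlet series
-/

set_option autoImplicit false

namespace Pool.Agent.H227.BG

open Filter Topology Set
open scoped ENNReal Real

namespace CoefN

/-- the coefficients -/
noncomputable def A (a : ℕ → ℝ) (n : ℕ) : ℝ :=
  ∑ m ∈ (Finset.Icc 1 n).filter (fun m => m ^ 2 ∣ n ∧ Nat.Coprime m 1), a (n / m ^ 2) ^ 2

/-- the double family -/
noncomputable def F (a : ℕ → ℝ) (s : ℝ) (N k : ℕ) : ℝ≥0∞ :=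
  if (N + 1) ^ 2 ∣ k then ENNReal.ofReal (a (k / (N + 1) ^ 2) ^ 2 * (k : ℝ) ^ (-s)) else 0

theorem A_zero (a : ℕ → ℝ) : A a 0 = 0 := by
  unfold A
  simp

theorem A_nonneg (a : ℕ → ℝ) (n : ℕ) : 0 ≤ A a n :=
  Finset.sum_nonneg fun _ _ => sq_nonneg _

theorem le_A {a : ℕ → ℝ} (h0 : a 0 = 0) (n : ℕ) : a n ^ 2 ≤ A a n := by
  rcases Nat.eq_zero_or_pos n with rfl | hn
  · rw [A_zero, h0]
    norm_num
  · have h1 : (1 : ℕ) ∈ (Finset.Icc 1 n).filter (fun m => m ^ 2 ∣ n ∧ Nat.Coprime m 1) := by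
      rw [Finset.mem_filter, Finset.mem_Icc]
      exact ⟨⟨le_rfl, hn⟩, by rw [one_pow]; exact one_dvd _, Nat.coprime_one_right _⟩
    have h2 := Finset.single_le_sum (f := fun m : ℕ => a (n / m ^ 2) ^ 2)
      (fun _ _ => sq_nonneg _) h1
    have h3 : a (n / 1 ^ 2) ^ 2 = a n ^ 2 := by rw [one_pow, Nat.div_one]
    rw [← h3]
    exact h2

/-- summation over `N` -/
theorem sum_N {a : ℕ → ℝ} (h0 : a 0 = 0) (s : ℝ) (k : ℕ) :
    ∑' N, F a s N k = ENNReal.ofReal (A a k * (k : ℝ) ^ (-s)) := by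
  rcases Nat.eq_zero_or_pos k with rfl | hk
  · rw [A_zero, zero_mul, ENNReal.ofReal_zero]
    have h1 : ∀ N, F a s N 0 = 0 := by
      intro N
      unfold F
      rw [if_pos (dvd_zero _), Nat.zero_div, h0, zero_pow two_ne_zero, zero_mul,
        ENNReal.ofReal_zero]
    simp only [h1, tsum_zero]
  · rw [tsum_eq_sum (s := Finset.range k) (by
      intro N hN
      rw [Finset.mem_range, not_lt] at hN
      unfold F
      rw [if_neg]
      intro h
      have h1 := Nat.le_of_dvd hk h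
      nlinarith)]
    unfold A
    rw [Finset.sum_mul, ENNReal.ofReal_sum_of_nonneg (fun m _ =>
      mul_nonneg (sq_nonneg _) (Real.rpow_nonneg (Nat.cast_nonneg _) _)), Finset.sum_filter]
    refine Finset.sum_nbij' (fun N => N + 1) (fun m => m - 1) ?_ ?_ ?_ ?_ ?_
    · intro N hN
      rw [Finset.mem_range] at hN
      rw [Finset.mem_Icc]
      omega
    · intro m hm
      rw [Finset.mem_Icc] at hm
      rw [Finset.mem_range]
      omega
    · intro N _
      exact Nat.add_sub_cancel _ _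
    · intro m hm
      rw [Finset.mem_Icc] at hm
      exact Nat.sub_add_cancel hm.1
    · intro N _
      unfold F
      by_cases h : (N + 1) ^ 2 ∣ k
      · rw [if_pos h, if_pos ⟨h, Nat.coprime_one_right _⟩]
      · rw [if_neg h, if_neg (fun h' => h h'.1)]

/-- summation over `k` -/
theorem sum_k (a : ℕ → ℝ) (s : ℝ) (N : ℕ) :
    ∑' k, F a s N k = ENNReal.ofReal (((N : ℝ) + 1) ^ (-(2 * s))) *
      ∑' n : ℕ, ENNReal.ofReal (a n ^ 2 * (n : ℝ) ^ (-s)) := by
  have hinj : Function.Injective (fun n : ℕ => (N + 1) ^ 2 * n) := by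
    intro x y h
    exact Nat.eq_of_mul_eq_mul_left (by positivity) h
  rw [← hinj.tsum_eq (f := F a s N), ← ENNReal.tsum_mul_left]
  · refine tsum_congr fun n => ?_
    unfold F
    rw [if_pos (dvd_mul_right _ _), Nat.mul_div_cancel_left _ (by positivity),
      ← ENNReal.ofReal_mul (Real.rpow_nonneg (by positivity) _)]
    congr 1
    push_cast
    rw [Real.mul_rpow (by positivity) (Nat.cast_nonneg _), ← Real.rpow_natCast ((N : ℝ) + 1) 2,
      ← Real.rpow_mul (by positivity)]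
    have : ((2 : ℕ) : ℝ) * -s = -(2 * s) := by
      push_cast
      ring
    rw [this]
    ring
  · intro k hk
    rw [Function.mem_support] at hk
    unfold F at hk
    by_cases h : (N + 1) ^ 2 ∣ k
    · obtain ⟨n, hn⟩ := h
      exact ⟨n, hn.symm⟩
    · rw [if_neg h] at hk
      exact absurd rfl hk

/-- the product of the two series -/
theorem prod {a : ℕ → ℝ} (h0 : a 0 = 0) (s : ℝ) :
    (∑' N : ℕ, ENNReal.ofReal (((N : ℝ) + 1) ^ (-(2 * s)))) *
      ∑' n : ℕ, ENNReal.ofReal (a n ^ 2 * (n : ℝ) ^ (-s)) =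
      ∑' k : ℕ, ENNReal.ofReal (A a k * (k : ℝ) ^ (-s)) := by
  rw [← ENNReal.tsum_mul_right, tsum_congr fun N => (sum_k a s N).symm, ENNReal.tsum_comm,
    tsum_congr fun k => sum_N h0 s k]

theorem zs_ne_top {s : ℝ} (hs : 1 < s) :
    ∑' N : ℕ, ENNReal.ofReal (((N : ℝ) + 1) ^ (-(2 * s))) ≠ ⊤ := by
  have h1 : Summable (fun n : ℕ => (n : ℝ) ^ (-(2 * s))) := Real.summable_nat_rpow.2 (by linarith)
  have h2 : Summable (fun N : ℕ => ((N : ℝ) + 1) ^ (-(2 * s))) := by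
    have h3 := (summable_nat_add_iff 1).2 h1
    refine h3.congr fun N => ?_
    push_cast
    rfl
  rw [← ENNReal.ofReal_tsum_of_nonneg (fun N => Real.rpow_nonneg (by positivity) _) h2]
  exact ENNReal.ofReal_ne_top

/-- the abstract statement -/
theorem main {a : ℕ → ℝ} (h0 : a 0 = 0) {s : ℝ} (hs : 1 < s)
    (hr : ∑' n : ℕ, ENNReal.ofReal (a n ^ 2 * (n : ℝ) ^ (-s)) ≠ ⊤) :
    Summable (fun n : ℕ => A a n * (n : ℝ) ^ (-s)) ∧
    (∑' N : ℕ, ENNReal.ofReal (((N : ℝ) + 1) ^ (-(2 * s)))).toReal *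
      (∑' n : ℕ, ENNReal.ofReal (a n ^ 2 * (n : ℝ) ^ (-s))).toReal =
      ∑' n : ℕ, A a n * (n : ℝ) ^ (-s) := by
  have h1 := prod h0 s
  have h2 : ∑' k : ℕ, ENNReal.ofReal (A a k * (k : ℝ) ^ (-s)) ≠ ⊤ := by
    rw [← h1]
    exact ENNReal.mul_ne_top (zs_ne_top hs) hr
  have h3 : ∀ k : ℕ, (ENNReal.ofReal (A a k * (k : ℝ) ^ (-s))).toReal = A a k * (k : ℝ) ^ (-s) :=
    fun k => ENNReal.toReal_ofReal
      (mul_nonneg (A_nonneg a k) (Real.rpow_nonneg (Nat.cast_nonneg _) _))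
  constructor
  · exact (ENNReal.summable_toReal h2).congr fun k => h3 k
  · rw [← ENNReal.toReal_mul, h1, ENNReal.tsum_toReal_eq (fun k => ENNReal.ofReal_ne_top)]
    exact tsum_congr h3

end CoefN

open Pool.Agent.H575.RD (la la_zero)
open Pool.Agent.H380.BG (S_COEF rs zs bb)

/-- **Task COEF** -/
theorem t_COEF : S_COEF :=
  ⟨CoefN.A_zero la, CoefN.A_nonneg la, CoefN.le_A la_zero, fun _ hs hr => CoefN.main la_zero hs hr⟩

end Pool.Agent.H227.BG
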